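import Mathlib
import Pool.Agent.Run7.h80.Sym.Main

/-!
# One zero of the outer polynomial off the spectrum
-/

set_option autoImplicit false

open Real Metric Polynomial Filter Topology

namespace Pool.Agent.Run7.h80.Sal

open Pool.Agent.Run7.h80.Sym

variable {Q : ℂ[X]} {n : ℕ}

lemma deg_le_of_root {f Ψ : ℤ[X]} (hirr : Irreducible f) (hΨm : Ψ.Monic) {t : ℂ}
    (ht : ev f t = 0) (hΨ : ev Ψ t = 0) : f.natDegree ≤ Ψ.natDegree :=
  natDegree_le_of_dvd (dvd_of_root hirr hΨm ht hΨ) hΨm.ne_zero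

lemma deg_le_two {f : ℤ[X]} (hirr : Irreducible f) {t : ℂ} {m : ℤ} (ht : ev f t = 0)
    (h : Exc t ∨ (t - m) ^ 2 = 2) : f.natDegree ≤ 2 := by
  rcases h with (⟨k, hk⟩ | ⟨l, hl⟩) | h
  · have := deg_le_of_root hirr (monic_X_sub_C k) ht (by
      rw [hk]
      simp [ev])
    rw [natDegree_X_sub_C] at this
    omega
  · obtain ⟨h1, h2⟩ := monic_quad (-(2 * l + 1)) (l ^ 2 + l - 1)
    have := deg_le_of_root hirr h1 ht (by
      rw [ev_quad]
      push_cast
      linear_combination hl)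
    omega
  · obtain ⟨h1, h2⟩ := monic_quad (-2 * m) (m ^ 2 - 2)
    have := deg_le_of_root hirr h1 ht (by
      rw [ev_quad]
      push_cast
      linear_combination h)
    omega

/-- **The degree of the outer polynomial is bounded by the exceptional zero.** -/
theorem SI.one_zero (h : SI Q n) {j : ℕ} (hj0 : 0 < j) (hjn : j < n)
    (hc : 1 ≤ ‖Q.coeff j‖) (hlow : ∀ i, 0 < i → i < j → Q.coeff i = 0) {f : ℤ[X]}
    (hirr : Irreducible f) (h3 : 3 ≤ f.natDegree) (hl : |f.leadingCoeff| = 1) {x1 : ℝ}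
    (hx1 : (x1 : ℂ) ∈ rts f) (hcount : (rts f).count (x1 : ℂ) = 1)
    (hzero : ∀ t ∈ rts f, t ≠ (x1 : ℂ) → G Q n t = 0) :
    ((f.natDegree : ℝ) - 1) / 175 ≤ Real.log (4 * Real.exp (G Q n x1) + 4) := by
  classical
  have hf := hirr.ne_zero
  set S : Finset ℂ := (rts f).toFinset.erase (x1 : ℂ) with hS
  have hmem : ∀ t, t ∈ S ↔ t ≠ (x1 : ℂ) ∧ t ∈ rts f := by
    intro t
    rw [hS, Finset.mem_erase, Multiset.mem_toFinset]
  set R := (rts f).erase (x1 : ℂ) with hR
  have hRc : Multiset.card R = f.natDegree - 1 := by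
    rw [hR, Multiset.card_erase_of_mem hx1, card_rts]
    rfl
  have hcons : rts f = (x1 : ℂ) ::ₘ R := (Multiset.cons_erase hx1).symm
  have hRne : ∀ t ∈ R, t ≠ (x1 : ℂ) := by
    rintro t ht rfl
    have h4 : R.count (x1 : ℂ) = 0 := by
      rw [hR, Multiset.count_erase_self, hcount]
    exact absurd ht (Multiset.count_eq_zero.1 h4)
  have hRf : ∀ t ∈ R, t ∈ rts f := fun t ht => Multiset.mem_of_mem_erase ht
  have h0 : S.Nonempty := by
    have h5 : 0 < Multiset.card R := by omega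
    obtain ⟨t, ht⟩ := Multiset.card_pos_iff_exists_mem.1 h5
    exact ⟨t, (hmem t).2 ⟨hRne t ht, hRf t ht⟩⟩
  have hG0 : ∀ t ∈ S, G Q n t = 0 := fun t ht => hzero t ((hmem t).1 ht).2 ((hmem t).1 ht).1
  have hGre : ∀ t ∈ S, G Q n t.re = 0 := by
    intro t ht
    have h6 := h.G_re2 t
    rw [hG0 t ht, mul_zero] at h6
    exact le_antisymm h6 (h.G_nonneg _)
  obtain ⟨Φ, m, hA, hsmall, hnear⟩ := locate S h0 (by
    intro s hs t ht
    by_contra hcon
    push Not at hcon
    have h1 := h.G_long hj0 hjn hc hlow (a := t.re) (b := s.re) hcon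
    rw [hGre t ht, hGre s hs] at h1
    norm_num at h1) (by
    intro t ht
    exact h.im_small t (by rw [hG0 t ht]; norm_num))
  have hne : ∀ t ∈ rts f, ev Φ t ≠ 0 := by
    intro t ht hz
    have h7 := deg_le_two hirr ((mem_rts hf).1 ht) (hA.zero t hz)
    omega
  have h8 := res_ineq hf hA.deg hne
  have hl' : |(f.leadingCoeff : ℝ)| = 1 := by exact_mod_cast hl
  rw [hl', Real.log_one, mul_zero, zero_add, hcons, Multiset.map_cons, Multiset.sum_cons] at h8
  have h9 : (R.map fun t => Real.log ‖ev Φ t‖).sum ≤ (R.map fun _ => (-0.04 : ℝ)).sum := by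
    apply Multiset.sum_map_le_sum_map
    intro t ht
    have hpos : 0 < ‖ev Φ t‖ := norm_pos_iff.2 (hne t (hRf t ht))
    have h2 := hsmall t ((hmem t).2 ⟨hRne t ht, hRf t ht⟩)
    exact (Real.log_le_log hpos h2).trans log_096
  rw [Multiset.map_const', Multiset.sum_replicate, hRc, nsmul_eq_mul] at h9
  have h10 : ((f.natDegree - 1 : ℕ) : ℝ) = (f.natDegree : ℝ) - 1 := by
    rw [Nat.cast_sub (by omega)]
    simp
  rw [h10] at h9
  obtain ⟨t0, ht0⟩ := h0
  have hd1 : |x1 - t0.re| ≤ 4 * Real.exp (G Q n x1) := by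
    rcases le_total x1 t0.re with h11 | h11
    · have h12 := h.dist h11
      rw [hGre t0 ht0, add_zero] at h12
      rw [abs_of_nonpos (by linarith)]
      linarith
    · have h12 := h.dist h11
      rw [hGre t0 ht0, zero_add] at h12
      rw [abs_of_nonneg (by linarith)]
      linarith
  have hd2 : ‖(x1 : ℂ) - m‖ ≤ 4 * Real.exp (G Q n x1) + 1.92 := by
    have e1 : ((x1 : ℂ) - m) = ((x1 - m : ℝ) : ℂ) := by push_cast; ring
    rw [e1, Complex.norm_real, Real.norm_eq_abs]
    have h13 : |x1 - m| ≤ |x1 - t0.re| + |t0.re - m| := by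
      have : x1 - m = (x1 - t0.re) + (t0.re - m) := by ring
      rw [this]
      exact abs_add_le _ _
    linarith [hnear t0 ht0]
  have hpos1 : 0 < ‖ev Φ (x1 : ℂ)‖ := norm_pos_iff.2 (hne _ hx1)
  have h14 : Real.log ‖ev Φ (x1 : ℂ)‖ ≤ 7 * Real.log (4 * Real.exp (G Q n x1) + 4) := by
    calc Real.log ‖ev Φ (x1 : ℂ)‖ ≤ Real.log ((4 * Real.exp (G Q n x1) + 4) ^ 7) := by
          apply Real.log_le_log hpos1
          refine (hA.bound _).trans ?_
          apply pow_le_pow_left₀ (by positivity)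
          linarith
      _ = 7 * Real.log (4 * Real.exp (G Q n x1) + 4) := by
          rw [Real.log_pow]
          norm_num
  linarith

end Pool.Agent.Run7.h80.Sal
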