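import Mathlib
import Pool.Agent.Run7.h80.Comp.Hom
import Pool.Agent.Run7.h80.Sym.Glue

/-!
# The reciprocal polynomial of a trace polynomial
-/

set_option autoImplicit false

open Real Metric Polynomial Filter Topology

namespace Pool.Agent.Run7.h80.Sal

open Pool.Agent.Run7.h80.Sym Pool.Agent.Run7.h80.Comp

/-- `X ^ m k(X + 1 / X)` -/
noncomputable def AA (k : ℤ[X]) : ℤ[X] := pcomp k (X ^ 2 + 1) X

lemma ne_zero_of_add_inv {w y : ℂ} (hw : w ≠ 0) (hy : w + w⁻¹ = y) :
    (X ^ 2 - C y * X + 1 : ℂ[X]) = (X - C w) * (X - C w⁻¹) := by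
  have h1 : w * w⁻¹ = 1 := mul_inv_cancel₀ hw
  have h2 : (C w : ℂ[X]) * C w⁻¹ = 1 := by rw [← C_mul, h1, C_1]
  rw [← hy, C_add]
  linear_combination -h2

lemma mahler_quad {w y : ℂ} (hw : w ≠ 0) (hy : w + w⁻¹ = y) :
    (X ^ 2 - C y * X + 1 : ℂ[X]).mahlerMeasure = max 1 ‖w‖ * max 1 ‖w⁻¹‖ := by
  rw [ne_zero_of_add_inv hw hy, mahlerMeasure_mul, mahlerMeasure_X_sub_C, mahlerMeasure_X_sub_C]

lemma mahler_quad_one {w y : ℂ} (hw : ‖w‖ = 1) (hy : w + w⁻¹ = y) :
    (X ^ 2 - C y * X + 1 : ℂ[X]).mahlerMeasure = 1 := by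
  have hw0 : w ≠ 0 := by
    rw [← norm_ne_zero_iff, hw]
    norm_num
  rw [mahler_quad hw0 hy, norm_inv, hw]
  simp

lemma mahler_quad_real {β : ℝ} (hβ : 1 < β) {y : ℂ} (hy : (β : ℂ) + (β : ℂ)⁻¹ = y) :
    (X ^ 2 - C y * X + 1 : ℂ[X]).mahlerMeasure = β := by
  have hw0 : (β : ℂ) ≠ 0 := by exact_mod_cast (by linarith : β ≠ 0)
  rw [mahler_quad hw0 hy, norm_inv, Complex.norm_real, Real.norm_of_nonneg (by linarith),
    max_eq_right hβ.le, max_eq_left (inv_le_one_of_one_le₀ hβ.le), mul_one]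

lemma AA_eval (k : ℤ[X]) {z : ℂ} (hz : z ≠ 0) :
    ((AA k).map (Int.castRingHom ℂ)).eval z =
      z ^ k.natDegree * (k.map (Int.castRingHom ℂ)).eval (z + z⁻¹) := by
  have h1 : ((AA k).map (Int.castRingHom ℂ)).eval z = pcomp k (z ^ 2 + 1) z := by
    have h2 := map_pcomp ((evalRingHom z).comp (mapRingHom (Int.castRingHom ℂ))) k (X ^ 2 + 1) X
    have h3 : ((evalRingHom z).comp (mapRingHom (Int.castRingHom ℂ))) (AA k) =
        ((AA k).map (Int.castRingHom ℂ)).eval z := rfl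
    rw [← h3, AA, h2]
    simp
  rw [h1, pcomp, eval_eq_sum_range, natDegree_map_eq_of_injective inj, Finset.mul_sum]
  refine Finset.sum_congr rfl fun j hj => ?_
  have hj' : j ≤ k.natDegree := by
    have := Finset.mem_range.1 hj
    omega
  have h4 : z + z⁻¹ = (z ^ 2 + 1) / z := by
    field_simp
  rw [coeff_map, h4, div_pow]
  have h5 : z ^ k.natDegree = z ^ (k.natDegree - j) * z ^ j := by
    rw [← pow_add]
    congr 1
    omega
  rw [h5]
  have h6 : z ^ j ≠ 0 := pow_ne_zero _ hz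
  simp only [eq_intCast]
  field_simp

lemma eq_of_eval_ne {p q : ℂ[X]} (h : ∀ z : ℂ, z ≠ 0 → p.eval z = q.eval z) : p = q := by
  have h1 : X * p = X * q := by
    apply Polynomial.funext
    intro z
    rcases eq_or_ne z 0 with rfl | hz
    · simp
    · rw [eval_mul, eval_mul, h z hz]
  exact mul_left_cancel₀ X_ne_zero h1

lemma AA_natDegree (k : ℤ[X]) (hk : k ≠ 0) :
    (AA k).natDegree = 2 * k.natDegree ∧ (AA k).leadingCoeff = k.leadingCoeff := by
  have h1 : AA k = C (k.leadingCoeff) * (X ^ 2 + 1) ^ k.natDegree +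
      ∑ j ∈ Finset.range k.natDegree, C (k.coeff j) * (X ^ 2 + 1) ^ j *
        X ^ (k.natDegree - j) := by
    rw [AA, pcomp, Finset.sum_range_succ, Nat.sub_self, pow_zero, mul_one, add_comm,
      coeff_natDegree]
    simp only [eq_intCast]
  have hmon : ((X ^ 2 + 1 : ℤ[X]) ^ k.natDegree).Monic := by
    apply Monic.pow
    monicity!
  have hdeg2 : (X ^ 2 + 1 : ℤ[X]).natDegree = 2 := by compute_degree!
  have hd1 : (C (k.leadingCoeff) * (X ^ 2 + 1 : ℤ[X]) ^ k.natDegree).natDegree =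
      2 * k.natDegree := by
    rw [natDegree_C_mul (leadingCoeff_ne_zero.2 hk), natDegree_pow, hdeg2, mul_comm]
  have hlc : (C (k.leadingCoeff) * (X ^ 2 + 1 : ℤ[X]) ^ k.natDegree).leadingCoeff =
      k.leadingCoeff := by
    rw [leadingCoeff_mul, hmon.leadingCoeff, leadingCoeff_C, mul_one]
  have hlt : ∀ j ∈ Finset.range k.natDegree, (C (k.coeff j) * (X ^ 2 + 1 : ℤ[X]) ^ j *
      X ^ (k.natDegree - j)).natDegree ≤ 2 * k.natDegree - 1 := by
    intro j hj
    have hj' := Finset.mem_range.1 hj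
    have e1 := natDegree_mul_le (p := C (k.coeff j) * (X ^ 2 + 1 : ℤ[X]) ^ j)
      (q := X ^ (k.natDegree - j))
    have e2 := natDegree_C_mul_le (k.coeff j) ((X ^ 2 + 1 : ℤ[X]) ^ j)
    rw [natDegree_pow, hdeg2] at e2
    rw [natDegree_X_pow] at e1
    omega
  rcases Nat.eq_zero_or_pos k.natDegree with h0 | h0
  · rw [h0] at h1
    rw [h0, h1]
    refine ⟨by simp, ?_⟩
    rw [pow_zero, mul_one, Finset.range_zero, Finset.sum_empty, add_zero, leadingCoeff_C]
  have hsum : (∑ j ∈ Finset.range k.natDegree, C (k.coeff j) * (X ^ 2 + 1 : ℤ[X]) ^ j *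
        X ^ (k.natDegree - j)).natDegree < (C (k.leadingCoeff) * (X ^ 2 + 1 : ℤ[X]) ^
          k.natDegree).natDegree := by
    rw [hd1]
    refine lt_of_le_of_lt (natDegree_sum_le_of_forall_le _ _ hlt) ?_
    omega
  constructor
  · rw [h1, natDegree_add_eq_left_of_natDegree_lt hsum, hd1]
  · rw [h1, leadingCoeff_add_of_degree_lt' (degree_lt_degree hsum), hlc]

lemma AA_sym (k : ℤ[X]) (hk : k ≠ 0) : ∀ i ≤ 2 * k.natDegree,
    (AA k).coeff (2 * k.natDegree - i) = (AA k).coeff i := by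
  set m := k.natDegree with hm
  set Q : ℂ[X] := (AA k).map (Int.castRingHom ℂ) with hQ
  have hd : Q.natDegree ≤ 2 * m := by
    rw [hQ, natDegree_map_eq_of_injective inj, (AA_natDegree k hk).1]
  have h1 : reflect (2 * m) Q = Q := by
    apply eq_of_eval_ne
    intro z hz
    have hz' : z⁻¹ ≠ 0 := inv_ne_zero hz
    let _ : Invertible (z⁻¹) := invertibleOfNonzero hz'
    have h2 := eval₂_reflect_mul_pow (RingHom.id ℂ) (z⁻¹) (2 * m) Q hd
    rw [invOf_eq_inv, inv_inv] at h2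
    have h3 : (reflect (2 * m) Q).eval z * z⁻¹ ^ (2 * m) = Q.eval z⁻¹ := h2
    have h4 : Q.eval z⁻¹ = z⁻¹ ^ m * (k.map (Int.castRingHom ℂ)).eval (z⁻¹ + z) := by
      rw [hQ, AA_eval k hz', inv_inv]
    have h5 : Q.eval z = z ^ m * (k.map (Int.castRingHom ℂ)).eval (z + z⁻¹) := AA_eval k hz
    rw [h4, add_comm z⁻¹ z] at h3
    rw [h5]
    have h6 : z ^ (2 * m) ≠ 0 := pow_ne_zero _ hz
    have h7 : z ^ m ≠ 0 := pow_ne_zero _ hz
    rw [inv_pow, inv_pow, mul_inv_eq_iff_eq_mul₀ h6] at h3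
    rw [h3, show 2 * m = m + m by ring, pow_add]
    field_simp
  intro i hi
  have h2 := congrArg (fun p : ℂ[X] => p.coeff i) h1
  simp only [coeff_reflect, revAt_le hi, hQ, coeff_map] at h2
  exact inj h2

lemma AA_pen_prod (k : ℤ[X]) (ξ : ℂ) :
    pen ((AA k).map (Int.castRingHom ℂ)) k.natDegree ξ =
      C ((k.map (Int.castRingHom ℂ) - C ξ).leadingCoeff) *
        (((k.map (Int.castRingHom ℂ) - C ξ).roots).map fun y => (X ^ 2 - C y * X + 1 : ℂ[X])).prod *
        X ^ (k.natDegree - (k.map (Int.castRingHom ℂ) - C ξ).natDegree) := by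
  set q := k.map (Int.castRingHom ℂ) - C ξ with hq
  have hqd : q.natDegree ≤ k.natDegree := by
    rw [hq]
    refine (natDegree_sub_le _ _).trans ?_
    rw [natDegree_C, natDegree_map_eq_of_injective inj]
    simp
  apply eq_of_eval_ne
  intro z hz
  have h1 : (pen ((AA k).map (Int.castRingHom ℂ)) k.natDegree ξ).eval z =
      z ^ k.natDegree * q.eval (z + z⁻¹) := by
    rw [pen, eval_sub, AA_eval k hz, hq]
    simp
    ring
  have h2 : q.eval (z + z⁻¹) = q.leadingCoeff * (q.roots.map fun y => (z + z⁻¹ - y)).prod := by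
    conv_lhs => rw [(IsAlgClosed.splits q).eq_prod_roots]
    rw [eval_mul, eval_C, eval_multiset_prod, Multiset.map_map]
    congr 3
    ext y
    simp
  have h3 : ∀ R : Multiset ℂ, z ^ (Multiset.card R) * (R.map fun y => (z + z⁻¹ - y)).prod =
      ((R.map fun y => (X ^ 2 - C y * X + 1 : ℂ[X])).prod).eval z := by
    intro R
    induction R using Multiset.induction_on with
    | empty => simp
    | cons a R ih =>
      rw [Multiset.map_cons, Multiset.prod_cons, Multiset.map_cons, Multiset.prod_cons, eval_mul,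
        ← ih, Multiset.card_cons, pow_succ]
      simp
      field_simp
      ring
  have h4 : Multiset.card q.roots = q.natDegree := (IsAlgClosed.splits q).natDegree_eq_card_roots.symm
  rw [h1, h2, eval_mul, eval_mul, eval_C, eval_pow, eval_X, ← h3, h4]
  have h5 : z ^ k.natDegree = z ^ q.natDegree * z ^ (k.natDegree - q.natDegree) := by
    rw [← pow_add]
    congr 1
    omega
  rw [h5]
  ring

end Pool.Agent.Run7.h80.Sal
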