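import Mathlib
import Pool.Agent.Run7.h80.Sal.Tr
import Pool.Agent.Run7.h80.Sal.Core

/-!
# Salem numbers with a decomposable trace polynomial
-/

set_option autoImplicit false

open Real Metric Polynomial Filter Topology

namespace Pool.Agent.Run7.h80.Sal

open Pool.Agent.Run7.h80.Sym Pool.Agent.Run7.h80.Comp

/-- a monic irreducible integer polynomial is the minimal polynomial of its zeros -/
lemma minpoly_of_root {K : Type} [Field K] [NumberField K] {f : ℤ[X]} (hf : Irreducible f)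
    (hm : f.Monic) {x : K} (hx : aeval x f = 0) : minpoly ℚ x = f.map (algebraMap ℤ ℚ) := by
  refine (minpoly.eq_of_irreducible_of_monic ?_ ?_ (hm.map _)).symm
  · exact (hm.irreducible_iff_irreducible_map_fraction_map).mp hf
  · rw [aeval_map_algebraMap, hx]

lemma exists_emb {K : Type} [Field K] [NumberField K] {f : ℤ[X]} (hf : Irreducible f)
    (hm : f.Monic) {x : K} (hx : aeval x f = 0) {z : ℂ} (hz : aeval z f = 0) :
    ∃ φ : K →ₐ[ℚ] ℂ, φ x = z := by
  have h1 : z ∈ (minpoly ℚ x).rootSet ℂ := by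
    rw [minpoly_of_root hf hm hx, mem_rootSet]
    refine ⟨(hm.map _).ne_zero, ?_⟩
    rw [aeval_map_algebraMap, hz]
  rw [← (Algebra.IsAlgebraic.range_eval_eq_rootSet_minpoly (F := ℚ) (K := K) ℂ x)] at h1
  obtain ⟨φ, hφ⟩ := h1
  exact ⟨φ, hφ⟩

lemma trace_integral {β : ℝ} (h2 : IsIntegral ℤ β) (h3 : aeval β⁻¹ (minpoly ℤ β) = 0) :
    IsIntegral ℤ (β + β⁻¹) :=
  h2.add ⟨_, minpoly.monic h2, by rw [← aeval_def]; exact h3⟩

/-- the conjugates of the trace -/
lemma trace_roots {β : ℝ} (h2 : IsIntegral ℤ β) (h3 : aeval β⁻¹ (minpoly ℤ β) = 0)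
    (h4 : ∀ z : ℂ, aeval z (minpoly ℤ β) = 0 → z ≠ (β : ℂ) → ‖z‖ ≤ 1) {y : ℂ}
    (hy : aeval y (minpoly ℤ (β + β⁻¹)) = 0) :
    y = (β : ℂ) + (β : ℂ)⁻¹ ∨ ∃ w : ℂ, ‖w‖ = 1 ∧ w + w⁻¹ = y := by
  have hint' := trace_integral h2 h3
  have h2q : IsIntegral ℚ β := h2.tower_top
  have : FiniteDimensional ℚ (IntermediateField.adjoin ℚ {β}) :=
    IntermediateField.adjoin.finiteDimensional h2q
  have : NumberField (IntermediateField.adjoin ℚ {β}) := ⟨⟩
  let b : IntermediateField.adjoin ℚ {β} := IntermediateField.AdjoinSimple.gen ℚ β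
  have hb : algebraMap (IntermediateField.adjoin ℚ {β}) ℝ b = β :=
    IntermediateField.AdjoinSimple.algebraMap_gen ℚ β
  have hbf : aeval b (minpoly ℤ β) = 0 := by
    apply (algebraMap (IntermediateField.adjoin ℚ {β}) ℝ).injective
    rw [map_zero, ← aeval_algebraMap_apply, hb, minpoly.aeval]
  have hbi : aeval b⁻¹ (minpoly ℤ β) = 0 := by
    apply (algebraMap (IntermediateField.adjoin ℚ {β}) ℝ).injective
    rw [map_zero, ← aeval_algebraMap_apply, map_inv₀, hb, h3]
  have hx : aeval (b + b⁻¹) (minpoly ℤ (β + β⁻¹)) = 0 := by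
    apply (algebraMap (IntermediateField.adjoin ℚ {β}) ℝ).injective
    rw [map_zero, ← aeval_algebraMap_apply, map_add, map_inv₀, hb, minpoly.aeval]
  obtain ⟨φ, hφ⟩ := exists_emb (minpoly.irreducible hint') (minpoly.monic hint') hx hy
  have hw1 : aeval (φ b) (minpoly ℤ β) = 0 := by
    have h1 : aeval (φ b) (minpoly ℤ β) = φ (aeval b (minpoly ℤ β)) :=
      aeval_algHom_apply (φ.restrictScalars ℤ) b _
    rw [h1, hbf, map_zero]
  have hw2 : aeval (φ b)⁻¹ (minpoly ℤ β) = 0 := by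
    have h1 : aeval (φ b⁻¹) (minpoly ℤ β) = φ (aeval b⁻¹ (minpoly ℤ β)) :=
      aeval_algHom_apply (φ.restrictScalars ℤ) b⁻¹ _
    rw [map_inv₀, hbi, map_zero] at h1
    exact h1
  have hw3 : φ b + (φ b)⁻¹ = y := by
    rw [← hφ, map_add, map_inv₀]
  rcases eq_or_ne (φ b) (β : ℂ) with e1 | e1
  · left
    rw [← hw3, e1]
  rcases eq_or_ne (φ b)⁻¹ (β : ℂ) with e2 | e2
  · left
    rw [← hw3, ← e2, inv_inv, add_comm]
  right
  refine ⟨φ b, ?_, hw3⟩
  have e3 := h4 _ hw1 e1
  have e4 := h4 _ hw2 e2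
  rcases eq_or_ne b 0 with e0 | e0
  · rw [e0, map_zero] at hb
    have h5 : (β : ℂ) = 0 := by exact_mod_cast hb.symm
    exact absurd (by rw [e0, map_zero, h5]) e1
  have e5 : φ b ≠ 0 := (map_ne_zero φ).2 e0
  rw [norm_inv] at e4
  have e6 : 1 ≤ ‖φ b‖ := (inv_le_one₀ (norm_pos_iff.2 e5)).1 e4
  linarith

/-- the complex zeros of an irreducible polynomial are simple -/
lemma rts_nodup {f : ℤ[X]} (hf : Irreducible f) (hd : 0 < f.natDegree) : (rts f).Nodup := by
  have hp : f.IsPrimitive := hf.isPrimitive (by omega)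
  have h1 : Irreducible (f.map (Int.castRingHom ℚ)) :=
    (IsPrimitive.Int.irreducible_iff_irreducible_map_cast hp).1 hf
  have h2 : (f.map (Int.castRingHom ℚ)).Separable := h1.separable
  have h3 : (f.map (Int.castRingHom ℂ)).Separable := by
    have h4 := h2.map (f := algebraMap ℚ ℂ)
    have h5 : (algebraMap ℚ ℂ).comp (Int.castRingHom ℚ) = Int.castRingHom ℂ :=
      RingHom.ext_int _ _
    rw [Polynomial.map_map, h5] at h4
    exact h4
  exact nodup_roots h3

/-- two numbers with the same trace -/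
lemma eq_or_of_add_inv {z w : ℂ} (hz : z ≠ 0) (hw : w ≠ 0) (h : z + z⁻¹ = w + w⁻¹) :
    z = w ∨ z * w = 1 := by
  have h1 : (z - w) * (z * w - 1) = 0 := by
    have h2 : z + z⁻¹ - (w + w⁻¹) = 0 := sub_eq_zero.2 h
    have h3 : (z - w) * (z * w - 1) = (z * w) * (z + z⁻¹ - (w + w⁻¹)) := by
      field_simp
      ring
    rw [h3, h2, mul_zero]
  rcases mul_eq_zero.1 h1 with h2 | h2
  · exact Or.inl (sub_eq_zero.1 h2)
  · exact Or.inr (sub_eq_zero.1 h2)

/-- **the structure of the pencil** -/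
theorem pencil {β : ℝ} (h1 : 1 < β) (h2 : IsIntegral ℤ β) (h3 : aeval β⁻¹ (minpoly ℤ β) = 0)
    (h4 : ∀ z : ℂ, aeval z (minpoly ℤ β) = 0 → z ≠ (β : ℂ) → ‖z‖ ≤ 1) {g k : ℤ[X]}
    (hgk : minpoly ℤ (β + β⁻¹) = g.comp k) (hk : 2 ≤ k.natDegree) (hg : 0 < g.natDegree) :
    Irreducible g ∧ |g.leadingCoeff| = 1 ∧ |k.leadingCoeff| = 1 ∧
    ((aeval (β + β⁻¹) k : ℝ) : ℂ) ∈ rts g ∧
    G ((AA k).map (Int.castRingHom ℂ)) k.natDegree ((aeval (β + β⁻¹) k : ℝ) : ℂ) = Real.log β ∧
    (∀ ξ ∈ rts g, ξ ≠ ((aeval (β + β⁻¹) k : ℝ) : ℂ) →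
      G ((AA k).map (Int.castRingHom ℂ)) k.natDegree ξ = 0) ∧
    (∀ z : ℂ, z ≠ 0 → ev k (z + z⁻¹) = ((aeval (β + β⁻¹) k : ℝ) : ℂ) →
      ‖z‖ = 1 ∨ z = (β : ℂ) ∨ z = (β : ℂ)⁻¹) := by
  classical
  have hint' := trace_integral h2 h3
  have hmon := minpoly.monic hint'
  have hirr := minpoly.irreducible hint'
  rw [hgk] at hmon hirr
  have hk0 : k.natDegree ≠ 0 := by omega
  have hβ0 : (β : ℂ) ≠ 0 := by exact_mod_cast (by linarith : β ≠ 0)
  have hlc : g.leadingCoeff * k.leadingCoeff ^ g.natDegree = 1 := by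
    rw [← leadingCoeff_comp hk0]
    exact hmon
  have hlg : |g.leadingCoeff| = 1 := Int.isUnit_iff_abs_eq.1 (IsUnit.of_mul_eq_one _ hlc)
  have hlk : |k.leadingCoeff| = 1 := by
    apply Int.isUnit_iff_abs_eq.1
    have e1 : IsUnit (k.leadingCoeff ^ g.natDegree) := IsUnit.of_mul_eq_one _ (by
      rw [mul_comm]; exact hlc)
    exact (isUnit_pow_iff (by omega)).1 e1
  have hirrg : Irreducible g := by
    refine ⟨fun hu => ?_, fun a b hab => ?_⟩
    · have := natDegree_eq_zero_of_isUnit hu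
      omega
    · have e1 : g.comp k = a.comp k * b.comp k := by rw [hab, mul_comp]
      have e2 : ∀ a : ℤ[X], IsUnit (a.comp k) → IsUnit a := by
        intro a ha
        have e3 := natDegree_eq_zero_of_isUnit ha
        rw [natDegree_comp] at e3
        have e4 : a.natDegree = 0 := by
          rcases Nat.mul_eq_zero.1 e3 with e5 | e5
          · exact e5
          · omega
        rw [eq_C_of_natDegree_eq_zero e4] at ha ⊢
        rwa [C_comp] at ha
      rcases hirr.isUnit_or_isUnit e1 with e3 | e3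
      · exact Or.inl (e2 _ e3)
      · exact Or.inr (e2 _ e3)
  set t : ℝ := β + β⁻¹ with ht
  have htC : (t : ℂ) = (β : ℂ) + (β : ℂ)⁻¹ := by
    rw [ht]
    push_cast
    rfl
  set x1 : ℝ := aeval t k with hx1
  have hevk : ev k (t : ℂ) = (x1 : ℂ) := by
    rw [ev, eval_map, hx1]
    have := aeval_algebraMap_apply ℂ t k
    rw [aeval_def] at this
    exact this
  have hevG : ∀ y : ℂ, ev (g.comp k) y = ev g (ev k y) := by
    intro y
    rw [ev, ev, ev, Polynomial.map_comp, eval_comp]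
  have haev : ∀ (q : ℤ[X]) (y : ℂ), aeval y q = ev q y := by
    intro q y
    rw [ev, eval_map, aeval_def]
    rfl
  have hroots : ∀ y : ℂ, ev g (ev k y) = 0 → y = (t : ℂ) ∨ ∃ w : ℂ, ‖w‖ = 1 ∧ w + w⁻¹ = y := by
    intro y hy
    rw [htC]
    apply trace_roots h2 h3 h4
    rw [hgk, haev, hevG, hy]
  have hg0 := hirrg.ne_zero
  have hx1g : ev g (x1 : ℂ) = 0 := by
    rw [← hevk, ← hevG, ← haev, ← hgk]
    have e1 := aeval_algebraMap_apply ℂ t (minpoly ℤ t)
    rw [minpoly.aeval, map_zero] at e1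
    exact e1
  have hGnd : (rts (g.comp k)).Nodup := by
    apply rts_nodup hirr
    rw [natDegree_comp]
    exact Nat.mul_pos hg (by omega)
  have hdegξ : ∀ ξ : ℂ, (k.map (Int.castRingHom ℂ) - C ξ).natDegree = k.natDegree ∧
      (k.map (Int.castRingHom ℂ) - C ξ).leadingCoeff = (k.leadingCoeff : ℂ) := by
    intro ξ
    have e1 : (k.map (Int.castRingHom ℂ)).natDegree = k.natDegree :=
      natDegree_map_eq_of_injective inj k
    have e2 : (C ξ).natDegree < (k.map (Int.castRingHom ℂ)).natDegree := by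
      rw [natDegree_C, e1]
      omega
    refine ⟨by rw [natDegree_sub_eq_left_of_natDegree_lt e2, e1], ?_⟩
    rw [leadingCoeff_sub_of_degree_lt (degree_lt_degree e2), leadingCoeff_map_of_injective inj]
    rfl
  have hmeas : ∀ ξ : ℂ, (pen ((AA k).map (Int.castRingHom ℂ)) k.natDegree ξ).mahlerMeasure =
      (((k.map (Int.castRingHom ℂ) - C ξ).roots).map fun y =>
        (X ^ 2 - C y * X + 1 : ℂ[X]).mahlerMeasure).prod := by
    intro ξ
    rw [AA_pen_prod, (hdegξ ξ).1, (hdegξ ξ).2, Nat.sub_self, pow_zero, mul_one, mahlerMeasure_mul,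
      mahlerMeasure_const, Complex.norm_intCast]
    have e1 : |(k.leadingCoeff : ℝ)| = 1 := by exact_mod_cast hlk
    rw [e1, one_mul]
    generalize (k.map (Int.castRingHom ℂ) - C ξ).roots = R
    induction R using Multiset.induction_on with
    | empty => simp
    | cons a R ih =>
      rw [Multiset.map_cons, Multiset.prod_cons, Multiset.map_cons, Multiset.prod_cons,
        mahlerMeasure_mul, ih]
  have hmemξ : ∀ ξ y : ℂ, y ∈ (k.map (Int.castRingHom ℂ) - C ξ).roots ↔ ev k y = ξ := by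
    intro ξ y
    have e1 : k.map (Int.castRingHom ℂ) - C ξ ≠ 0 := by
      intro e2
      have e3 := (hdegξ ξ).1
      rw [e2, natDegree_zero] at e3
      omega
    rw [mem_roots e1, IsRoot.def, eval_sub, eval_C, sub_eq_zero]
    rfl
  refine ⟨hirrg, hlg, hlk, (mem_rts hg0).2 hx1g, ?_, ?_, ?_⟩
  · -- the exceptional zero
    have hnd : ((k.map (Int.castRingHom ℂ) - C (x1 : ℂ)).roots).Nodup := by
      have e1 : (X - C (x1 : ℂ)) ∣ g.map (Int.castRingHom ℂ) := dvd_iff_isRoot.2 hx1g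
      obtain ⟨q, hq⟩ := e1
      have e2 : (k.map (Int.castRingHom ℂ) - C (x1 : ℂ)) ∣ (g.comp k).map (Int.castRingHom ℂ) := by
        rw [Polynomial.map_comp, hq, mul_comp, sub_comp, X_comp, C_comp]
        exact dvd_mul_right _ _
      exact Multiset.nodup_of_le (roots.le_of_dvd ((Polynomial.map_ne_zero_iff inj).2
        hirr.ne_zero) e2) hGnd
    have hmem : (t : ℂ) ∈ (k.map (Int.castRingHom ℂ) - C (x1 : ℂ)).roots := (hmemξ _ _).2 hevk
    rw [G, hmeas, ← Multiset.cons_erase hmem, Multiset.map_cons, Multiset.prod_cons,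
      mahler_quad_real h1 htC.symm]
    have e3 : (((k.map (Int.castRingHom ℂ) - C (x1 : ℂ)).roots.erase (t : ℂ)).map fun y =>
        (X ^ 2 - C y * X + 1 : ℂ[X]).mahlerMeasure).prod = 1 := by
      apply Multiset.prod_eq_one
      intro r hr
      obtain ⟨y, hy, rfl⟩ := Multiset.mem_map.1 hr
      have e4 := (hnd.mem_erase_iff).1 hy
      have e5 := (hmemξ _ _).1 e4.2
      rcases hroots y (by rw [e5, hx1g]) with e6 | ⟨w, hw, hwy⟩
      · exact absurd e6 e4.1
      · exact mahler_quad_one hw hwy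
    rw [e3, mul_one]
  · intro ξ hξ hne
    rw [G, hmeas]
    have e3 : (((k.map (Int.castRingHom ℂ) - C ξ).roots).map fun y =>
        (X ^ 2 - C y * X + 1 : ℂ[X]).mahlerMeasure).prod = 1 := by
      apply Multiset.prod_eq_one
      intro r hr
      obtain ⟨y, hy, rfl⟩ := Multiset.mem_map.1 hr
      have e5 := (hmemξ _ _).1 hy
      rcases hroots y (by rw [e5]; exact (mem_rts hg0).1 hξ) with e6 | ⟨w, hw, hwy⟩
      · exfalso
        apply hne
        rw [← e5, e6, hevk]
      · exact mahler_quad_one hw hwy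
    rw [e3, Real.log_one]
  · intro z hz hzx
    rcases hroots (z + z⁻¹) (by rw [hzx, hx1g]) with e1 | ⟨w, hw, hwy⟩
    · rw [htC] at e1
      rcases eq_or_of_add_inv hz hβ0 e1 with e2 | e2
      · exact Or.inr (Or.inl e2)
      · exact Or.inr (Or.inr (eq_inv_of_mul_eq_one_left e2))
    · left
      have hw0 : w ≠ 0 := by
        rw [← norm_ne_zero_iff, hw]
        norm_num
      rcases eq_or_of_add_inv hz hw0 hwy.symm with e2 | e2
      · rw [e2, hw]
      · have e3 := congrArg norm e2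
        rw [norm_mul, hw, mul_one, norm_one] at e3
        exact e3

end Pool.Agent.Run7.h80.Sal
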