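import Mathlib
import Pool.Agent.Run7.h80.Sal.Main
import Pool.Agent.Run7.h80.Sym.Glue

/-!
# The bounds for Salem numbers with a decomposable trace polynomial
-/

set_option autoImplicit false

open Real Metric Polynomial Filter Topology

namespace Pool.Agent.Run7.h80.Sal

open Pool.Agent.Run7.h80.Sym Pool.Agent.Run7.h80.Comp

/-- an inner coefficient -/
lemma exists_inner {k : ℤ[X]} (hk : 2 ≤ k.natDegree) {β x : ℝ} (h1 : 1 < β)
    (hx : ev k ((β : ℂ) + (β : ℂ)⁻¹) = (x : ℂ))
    (h : ∀ z : ℂ, z ≠ 0 → ev k (z + z⁻¹) = (x : ℂ) →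
      ‖z‖ = 1 ∨ z = (β : ℂ) ∨ z = (β : ℂ)⁻¹) :
    ∃ i, 0 < i ∧ i < k.natDegree ∧ (AA k).coeff i ≠ 0 := by
  by_contra hcon
  push Not at hcon
  set m := k.natDegree with hm
  have hk0 : k ≠ 0 := by
    rintro rfl
    rw [natDegree_zero] at hm
    omega
  have hβ0 : (β : ℂ) ≠ 0 := by exact_mod_cast (by linarith : β ≠ 0)
  have hprim := Complex.isPrimitiveRoot_exp m (by omega)
  set ζ : ℂ := Complex.exp (2 * π * Complex.I / m) with hζ
  have hζ0 : ζ ≠ 0 := Complex.exp_ne_zero _
  set z : ℂ := ζ * β with hz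
  have hz0 : z ≠ 0 := mul_ne_zero hζ0 hβ0
  have hzm : z ^ m = (β : ℂ) ^ m := by
    rw [hz, mul_pow, hprim.pow_eq_one, one_mul]
  have hev : ((AA k).map (Int.castRingHom ℂ)).eval z =
      ((AA k).map (Int.castRingHom ℂ)).eval (β : ℂ) := by
    rw [eval_eq_sum_range, eval_eq_sum_range, natDegree_map_eq_of_injective inj,
      (AA_natDegree k hk0).1]
    refine Finset.sum_congr rfl fun i hi => ?_
    have hi' : i ≤ 2 * m := by
      have := Finset.mem_range.1 hi
      omega
    rcases eq_or_ne ((AA k).coeff i) 0 with h0 | h0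
    · rw [coeff_map, h0, map_zero, zero_mul, zero_mul]
    · have hi3 : i = 0 ∨ i = m ∨ i = 2 * m := by
        by_contra hne
        push Not at hne
        rcases lt_trichotomy i m with h5 | h5 | h5
        · exact h0 (hcon i (by omega) h5)
        · exact hne.2.1 h5
        · have h6 := AA_sym k hk0 i hi'
          rw [hcon (2 * m - i) (by omega) (by omega)] at h6
          exact h0 h6.symm
      rcases hi3 with rfl | rfl | rfl
      · rw [pow_zero, pow_zero]
      · rw [hzm]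
      · rw [mul_comm 2 m, pow_mul, pow_mul, hzm]
  rw [AA_eval k hz0, AA_eval k hβ0, hzm] at hev
  have hev2 := mul_left_cancel₀ (pow_ne_zero _ hβ0) hev
  have hev3 : ev k (z + z⁻¹) = (x : ℂ) := by
    rw [← hx]
    exact hev2
  have hnz : ‖z‖ = β := by
    rw [hz, norm_mul, Complex.norm_real, Real.norm_of_nonneg (by linarith)]
    have h7 : ‖ζ‖ = 1 := hprim.norm'_eq_one (by omega)
    rw [h7, one_mul]
  rcases h z hz0 hev3 with h8 | h8 | h8
  · rw [hnz] at h8
    linarith
  · have h9 : ζ = 1 := by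
      have : ζ * β = 1 * β := by rw [one_mul]; exact h8
      exact mul_right_cancel₀ hβ0 this
    exact hprim.ne_one (by omega) h9
  · rw [h8, norm_inv, Complex.norm_real, Real.norm_of_nonneg (by linarith)] at hnz
    have h10 : β⁻¹ < 1 := inv_lt_one_of_one_lt₀ h1
    linarith

/-- **Salem numbers with a decomposable trace polynomial.** -/
theorem salem_bounds {β : ℝ} (h1 : 1 < β) (h2 : IsIntegral ℤ β)
    (h3 : aeval β⁻¹ (minpoly ℤ β) = 0)
    (h4 : ∀ z : ℂ, aeval z (minpoly ℤ β) = 0 → z ≠ (β : ℂ) → ‖z‖ ≤ 1) {g k : ℤ[X]}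
    (hgk : minpoly ℤ (β + β⁻¹) = g.comp k) (hk : 2 ≤ k.natDegree) (hg : 3 ≤ g.natDegree) :
    0.0042 ≤ Real.log β ∧ ((g.natDegree : ℝ) - 1) / 175 ≤ Real.log (4 * β + 4) := by
  classical
  obtain ⟨hirr, hlg, hlk, hmem, hG1, hG0, hz⟩ := pencil h1 h2 h3 h4 hgk hk (by omega)
  set x1 : ℝ := aeval (β + β⁻¹) k with hx1
  set Q : ℂ[X] := (AA k).map (Int.castRingHom ℂ) with hQ
  set m := k.natDegree with hm
  have hk0 : k ≠ 0 := by
    rintro rfl
    rw [natDegree_zero] at hm
    omega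
  have hQc : ∀ i, Q.coeff i = ((AA k).coeff i : ℂ) := fun i => by
    rw [hQ, coeff_map]
    rfl
  have hSI : SI Q m :=
    { deg := by rw [hQ, natDegree_map_eq_of_injective inj, (AA_natDegree k hk0).1]
      npos := by omega
      sym := fun i hi => by
        rw [hQc, hQc, AA_sym k hk0 i hi, map_intCast]
      one := by
        rw [hQc, ← AA_sym k hk0 0 (by omega), Nat.sub_zero, ← (AA_natDegree k hk0).1]
        change ‖((AA k).leadingCoeff : ℂ)‖ = 1
        rw [(AA_natDegree k hk0).2, Complex.norm_intCast]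
        exact_mod_cast hlk }
  have hevx : ev k ((β : ℂ) + (β : ℂ)⁻¹) = (x1 : ℂ) := by
    have e1 := aeval_algebraMap_apply ℂ (β + β⁻¹) k
    rw [ev, eval_map, hx1]
    rw [aeval_def] at e1
    have e2 : algebraMap ℝ ℂ (β + β⁻¹) = (β : ℂ) + (β : ℂ)⁻¹ := by
      simp
    rw [e2] at e1
    exact e1
  obtain ⟨j, hj0, hjn, hj, hlow⟩ := exists_first (exists_inner hk h1 hevx hz)
  have hc : 1 ≤ ‖Q.coeff j‖ := by
    rw [hQc]
    exact one_le_norm_int hj
  have hlow' : ∀ i, 0 < i → i < j → Q.coeff i = 0 := fun i h0 h1 => by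
    rw [hQc, hlow i h0 h1, Int.cast_zero]
  have hnd := rts_nodup hirr (by omega)
  have hcount : (rts g).count (x1 : ℂ) = 1 := Multiset.count_eq_one_of_mem hnd hmem
  have hx1e : ¬ Exc (x1 : ℂ) := by
    intro he
    have := deg_le_two hirr (m := 0) ((mem_rts hirr.ne_zero).1 hmem) (Or.inl he)
    omega
  constructor
  · have e1 := hSI.core_gap hj0 hjn hc hlow' hirr hmem hx1e
    have e2 : |(g.leadingCoeff : ℝ)| = 1 := by exact_mod_cast hlg
    rw [e2, Real.log_one, zero_add, ← Multiset.cons_erase hmem, Multiset.map_cons,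
      Multiset.sum_cons, hG1] at e1
    have e3 : (((rts g).erase (x1 : ℂ)).map fun t => G Q m t).sum = 0 := by
      apply Multiset.sum_eq_zero
      intro r hr
      obtain ⟨y, hy, rfl⟩ := Multiset.mem_map.1 hr
      have e4 := (hnd.mem_erase_iff).1 hy
      exact hG0 y e4.2 e4.1
    rw [e3, add_zero] at e1
    exact e1
  · have e1 := Pool.Agent.Run7.h80.Sal.SI.one_zero hSI hj0 hjn hc hlow' hirr hg hlg hmem hcount hG0
    rw [hG1, Real.exp_log (by linarith)] at e1
    exact e1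

end Pool.Agent.Run7.h80.Sal
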